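import Pool.Agent.Helper8.SPV.Stmts
import Pool.Agent.Helper8.SPV.PLib

/-! # `X` and `Y` are algebraic over `k0(Q(T))` when the obstructions vanish -/

set_option autoImplicit false

namespace Pool.Agent.Helper8.SPV

open IntermediateField (adjoin)

theorem st_A2 (hDEREXT : ST_DEREXT) (hID : ST_ID) (hTR : ST_TR) : ST_A2 := by
  intro k0 k K _ _ _ _ _ _ _ _ _ _ b T W X Y d hBD hFF hPt hT hz hp
  have hcz : CharZero K := charZero_of_injective_algebraMap (algebraMap k K).injective
  have hU := hTR k0 k K b hBD T hT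
  obtain ⟨-, hW, hδU, hDU, hzz, ⟨hp1, hp2⟩, -⟩ := hID k0 k K b T W X Y d hPt hT hU
  have hpow : ∀ Z : K, (∀ j : Fin 9, T * d.D j.castSucc Z - d.D j.succ Z = 0) →
      ∀ j : Fin 10, d.D j Z = T ^ (j : ℕ) * d.D 0 Z := by
    intro Z hZ j
    induction j using Fin.induction with
    | zero => simp
    | succ j ih =>
      have h1 := hZ j
      rw [ih] at h1
      have h2 : d.D j.succ Z = T * (T ^ ((j.castSucc : Fin 10) : ℕ) * d.D 0 Z) := by
        linear_combination -h1
      rw [h2, Fin.val_succ, Fin.val_castSucc, pow_succ]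
      ring
  have hkey : ∀ Z : K, (∀ j : Fin 9, T * d.D j.castSucc Z - d.D j.succ Z = 0) →
      gg b T W * d.D 0 Z - d.δ Z = 0 → IsAlgebraic (adjoin k0 {Qf b T}) Z := by
    intro Z h1 h2
    by_contra hcon
    have hcz' : CharZero (adjoin k0 {Qf b T}) :=
      (algebraMap (adjoin k0 {Qf b T}) K).charZero
    obtain ⟨-, h⟩ := hDEREXT (adjoin k0 {Qf b T}) K 0
    obtain ⟨D', hD', hDZ⟩ := h Z hcon 1
    have hD0 : ∀ c : k0, D' (algebraMap k0 K c) = 0 := fun c =>
      hD' (algebraMap k0 (adjoin k0 {Qf b T}) c)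
    have hDU0 : D' (Qf b T) = 0 :=
      hD' ⟨Qf b T, IntermediateField.mem_adjoin_simple_self k0 (Qf b T)⟩
    let D₀ : Derivation k0 K K :=
      { toFun := D'
        map_add' := fun x y => map_add D' x y
        map_smul' := fun c x => by
          rw [Algebra.smul_def, D'.leibniz, hD0, smul_zero, add_zero, smul_eq_mul,
            RingHom.id_apply, Algebra.smul_def]
        map_one_eq_zero' := D'.map_one_eq_zero
        leibniz' := fun x y => D'.leibniz x y }
    have hval : ∀ x, D₀ x = D' x := fun _ => rfl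
    have h3 := d.span D₀ Z
    have h4 := d.span D₀ (Qf b T)
    rw [hval, hDU0, hδU] at h4
    rw [hval, hDZ] at h3
    have h5 : d.δ Z = gg b T W * d.D 0 Z := by linear_combination -h2
    rw [h5] at h3
    have h6 : ∑ j : Fin 10, D₀ (algebraMap k K (b j)) * d.D j Z =
        (∑ j : Fin 10, D₀ (algebraMap k K (b j)) * d.D j (Qf b T)) * d.D 0 Z := by
      rw [Finset.sum_mul]
      refine Finset.sum_congr rfl fun j _ => ?_
      rw [hpow Z h1 j, hDU j]
      ring
    rw [h6] at h3
    have h7 : (1 : K) = 0 := by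
      linear_combination h3 - d.D 0 Z * h4
    exact one_ne_zero h7
  refine ⟨hkey X (fun j => ?_) ?_, hkey Y (fun j => ?_) ?_⟩
  · rw [(hzz j).1, hz j, mul_zero]
  · rw [hp1, hp, mul_zero]
  · rw [(hzz j).2, hz j, mul_zero]
  · rw [hp2, hp, mul_zero]

end Pool.Agent.Helper8.SPV
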