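import Pool.Agent.Helper8.SPV.Stmts
import Pool.Agent.Helper8.SPV.PLib

/-! # The degree of `k(U, X, Y)` over `k(U)` is at most `κ + 1` -/

set_option autoImplicit false

namespace Pool.Agent.Helper8.SPV

open IntermediateField (adjoin)

section

variable {k K : Type} [Field k] [Field K] [Algebra k K]

/-- the functions of order at least `m` at a place -/
def A4_ge {p : Pl k K} (h : p.Laws) (m : ℤ) : Submodule k K where
  carrier := {F | p.Ge m F}
  zero_mem' := h.ge_zero m
  add_mem' ha hb := h.ge_add ha hb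
  smul_mem' c _ hx := h.ge_smul c hx

theorem A4_mem_ge {p : Pl k K} (h : p.Laws) (m : ℤ) (F : K) : F ∈ A4_ge h m ↔ p.Ge m F := Iff.rfl

/-- the monomials `u ^ j y i` are linearly independent -/
theorem A4_indep {u : K} (hu : Transcendental k u) {e : ℕ} (y : Fin e → K)
    (hy : LinearIndependent (adjoin k {u}) y) (M : ℕ) :
    LinearIndependent k fun q : Fin M × Fin e => u ^ (q.1 : ℕ) * y q.2 := by
  have h1 : LinearIndependent k fun j : Fin M =>
      (⟨u, IntermediateField.mem_adjoin_simple_self k u⟩ : adjoin k {u}) ^ (j : ℕ) := by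
    have h2 : LinearIndependent k fun j : ℕ =>
        (⟨u, IntermediateField.mem_adjoin_simple_self k u⟩ : adjoin k {u}) ^ j := by
      have h3 : Function.Injective (Polynomial.aeval (R := k)
          (⟨u, IntermediateField.mem_adjoin_simple_self k u⟩ : adjoin k {u})) := by
        rw [← transcendental_iff_injective]
        intro h4
        apply hu
        exact h4.algHom (adjoin k {u}).val
      have h4 := (Polynomial.basisMonomials k).linearIndependent.map' 
        (Polynomial.aeval (R := k)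
          (⟨u, IntermediateField.mem_adjoin_simple_self k u⟩ : adjoin k {u})).toLinearMap
        (LinearMap.ker_eq_bot.2 h3)
      have h5 : (⇑((Polynomial.aeval (R := k)
          (⟨u, IntermediateField.mem_adjoin_simple_self k u⟩ : adjoin k {u})).toLinearMap) ∘
            ⇑(Polynomial.basisMonomials k)) = fun j : ℕ =>
          (⟨u, IntermediateField.mem_adjoin_simple_self k u⟩ : adjoin k {u}) ^ j := by
        funext j
        simp
      rw [h5] at h4
      exact h4
    exact h2.comp _ Fin.val_injective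
  have h2 := linearIndependent_smul h1 hy
  have h3 : (fun q : Fin M × Fin e => u ^ (q.1 : ℕ) * y q.2) = fun q : Fin M × Fin e =>
      (⟨u, IntermediateField.mem_adjoin_simple_self k u⟩ : adjoin k {u}) ^ (q.1 : ℕ) •
        y q.2 := by
    funext q
    rw [Algebra.smul_def, map_pow]
    rfl
  rw [h3]
  exact h2

/-- elements integral over `k0[u]` are in the valuation ring -/
theorem A4_int {k0 : Type} [Field k0] [Algebra k0 k] [Algebra k0 K] [IsScalarTower k0 k K]
    (p : Pl k K) {u y : K} (hu : u ∈ p.O) (hy : IsIntegral (Algebra.adjoin k0 {u}) y) :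
    y ∈ p.O := by
  have hle : ∀ x ∈ Algebra.adjoin k0 {u}, x ∈ p.O := by
    intro x hx
    induction hx using Algebra.adjoin_induction with
    | mem x hx =>
      rw [Set.mem_singleton_iff] at hx
      rw [hx]
      exact hu
    | algebraMap c =>
      rw [IsScalarTower.algebraMap_apply k0 k K]
      exact p.mem _
    | add x y _ _ hx hy => exact p.O.add_mem _ _ hx hy
    | mul x y _ _ hx hy => exact p.O.mul_mem _ _ hx hy
  let ψ : Algebra.adjoin k0 {u} →+* p.O :=
    { toFun := fun x => ⟨x, hle x x.2⟩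
      map_one' := rfl
      map_mul' := fun _ _ => rfl
      map_zero' := rfl
      map_add' := fun _ _ => rfl }
  obtain ⟨P, hP, h0⟩ := hy
  have h1 : IsIntegral p.O y := by
    refine ⟨P.map ψ, hP.map ψ, ?_⟩
    rw [Polynomial.eval₂_map]
    exact h0
  obtain ⟨z, hz⟩ := IsIntegrallyClosed.isIntegral_iff.1 h1
  rw [← hz]
  exact z.2

/-- functions whose first `n` derivatives are regular at the places of `S` -/
def A4_V (hL : ∀ p : Pl k K, p.Laws) (V₀ : Submodule k K) (D : Module.End k K)
    (S : Finset (Pl k K)) (n : ℕ) : Submodule k K where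
  carrier := {F | F ∈ V₀ ∧ ∀ m ≤ n, ∀ p ∈ S, p.Ge 0 ((D ^ m) F)}
  zero_mem' := ⟨V₀.zero_mem, fun m _ p _ => by
    rw [map_zero]
    exact (hL p).ge_zero 0⟩
  add_mem' ha hb := ⟨V₀.add_mem ha.1 hb.1, fun m hm p hp => by
    rw [map_add]
    exact (hL p).ge_add (ha.2 m hm p hp) (hb.2 m hm p hp)⟩
  smul_mem' c _ hx := ⟨V₀.smul_mem c hx.1, fun m hm p hp => by
    rw [map_smul]
    exact (hL p).ge_smul c (hx.2 m hm p hp)⟩

theorem A4_count [IsAlgClosed k] [CharZero k] (hCODIM : ST_CODIM) (hFF : IsFF k K)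
    (hL : ∀ p : Pl k K, p.Laws) (V₀ : Submodule k K)
    [FiniteDimensional k V₀] (D : Module.End k K) (S : Finset (Pl k K)) (r : Pl k K → ℤ)
    (hr : ∀ p ∈ S, 0 ≤ r p) (hD : ∀ p ∈ S, ∀ F, p.Ge 0 F → p.Ge (-r p) (D F))
    (h0 : ∀ F ∈ V₀, ∀ p ∈ S, p.Ge 0 F) (n : ℕ) :
    (Module.finrank k V₀ : ℤ) ≤ Module.finrank k (A4_V hL V₀ D S n) + n * ∑ p ∈ S, r p := by
  induction n with
  | zero =>
    have : V₀ ≤ A4_V hL V₀ D S 0 := by
      intro F hF
      refine ⟨hF, fun m hm p hp => ?_⟩
      obtain rfl : m = 0 := by omega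
      exact h0 F hF p hp
    have h1 : V₀ = A4_V hL V₀ D S 0 := le_antisymm this fun F hF => hF.1
    rw [← h1]
    simp
  | succ n ih =>
    have hle : A4_V hL V₀ D S n ≤ V₀ := fun F hF => hF.1
    have : FiniteDimensional k (A4_V hL V₀ D S n) := Submodule.finiteDimensional_of_le hle
    have h1 := hCODIM k K hFF (A4_V hL V₀ D S n) (D ^ (n + 1)) S (fun _ => 0) r hr (by
      intro F hF p hp
      rw [zero_sub, pow_succ', Module.End.mul_apply]
      exact hD p hp _ (hF.2 n le_rfl p hp)) (A4_V hL V₀ D S (n + 1)) (by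
      intro F
      constructor
      · intro hF
        exact ⟨⟨hF.1, fun m hm => hF.2 m (by omega)⟩, hF.2 (n + 1) le_rfl⟩
      · rintro ⟨hF, hF'⟩
        refine ⟨hF.1, fun m hm => ?_⟩
        rcases Nat.lt_or_ge n m with h | h
        · obtain rfl : m = n + 1 := by omega
          exact hF'
        · exact hF.2 m h)
    push_cast
    linarith

end

theorem st_A4 (hPL1 : ST_PL1) (hPL5 : ST_PL5) (hPL7 : ST_PL7) (hCORR : ST_CORR)
    (hEINF : ST_EINF) (hCODIM : ST_CODIM) (hKERN : ST_KERN) (hBASI : ST_BASI) (hA4F : ST_A4F)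
    (hA4I : ST_A4I) (hID : ST_ID) (hTR : ST_TR) (hDER1 : ST_DER1) : ST_A4 := by
  intro k0 k K _ _ _ _ _ _ _ _ _ _ b T W X Y d hBD hFF hPt hT hX hY
  classical
  have hL : ∀ p : Pl k K, p.Laws := hPL1 k K hFF
  have hU : Transcendental k (Qf b T) := hTR k0 k K b hBD T hT
  obtain ⟨-, hW, hδU, -, -, -, -⟩ := hID k0 k K b T W X Y d hPt hT hU
  have hcz : CharZero K := charZero_of_injective_algebraMap (algebraMap k K).injective
  have hδ : d.δ ≠ 0 := by
    intro h
    have h1 := d.δT
    rw [h] at h1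
    have h2 : (2 : K) * W ≠ 0 := mul_ne_zero two_ne_zero hW
    exact h2 h1.symm
  have hg : gg b T W ≠ 0 := by
    intro h
    rw [h] at hδU
    obtain ⟨c, hc⟩ := (hDER1 k K hFF).1 d.δ hδ _ hδU
    apply hU
    rw [hc]
    exact isAlgebraic_algebraMap c
  let D : Derivation k K K := (gg b T W)⁻¹ • d.δ
  have hDf : ∀ f, D f = (gg b T W)⁻¹ * d.δ f := fun f => rfl
  have hDu : D (Qf b T) = 1 := by rw [hDf, hδU, inv_mul_cancel₀ hg]
  have hB := hBASI k0 k K (Qf b T) X Y hU hX hY
  obtain ⟨e, he⟩ : ∃ e : ℕ, e =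
      Module.finrank (adjoin k {Qf b T}) (adjoin (adjoin k {Qf b T}) {X, Y}) := ⟨_, rfl⟩
  rw [← he] at hB ⊢
  obtain ⟨y, hy, hyI⟩ := hB
  obtain ⟨hI1, hI2⟩ := hA4I k0 k K b T W d hBD hFF hPt.e1 hT
  choose c hc using fun i => hI2 (y i) (hyI i).2
  set c₀ : ℕ := ∑ i, c i with hc₀
  have hcle : ∀ i, c i ≤ c₀ := fun i =>
    Finset.single_le_sum (f := c) (fun _ _ => Nat.zero_le _) (Finset.mem_univ i)
  have hordT : ∀ p : Pl k K, T ∉ p.O → p.ord T < 0 := by
    intro p hp
    have hT0 : T ≠ 0 := by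
      rintro rfl
      exact hp p.O.zero_mem
    by_contra h
    push Not at h
    exact hp (((hL p).mem_iff T hT0).2 h)
  have hordU : ∀ p : Pl k K, T ∉ p.O → p.ord (Qf b T) = 9 * p.ord T := by
    intro p hp
    obtain ⟨m, h1, h2, -, -, -, -, h3⟩ := hEINF k K b T W d.δ hFF hPt.e1 hT d.δT d.δW p hp
    obtain ⟨-, h4, -⟩ := h3 (hBD.indep.ne_zero 9)
    rw [h4, h2]
    ring
  have hyinf : ∀ p : Pl k K, T ∉ p.O → ∀ i, p.Ge (9 * c₀ * p.ord T) (y i) := by
    intro p hp i
    refine (hL p).ge_mono (hc i p hp) ?_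
    have h1 : (c i : ℤ) ≤ c₀ := by exact_mod_cast hcle i
    nlinarith [hordT p hp]
  -- finite places
  have hUfin : ∀ p : Pl k K, T ∈ p.O → Qf b T ∈ p.O := by
    intro p hp
    unfold Qf
    exact sum_mem fun j _ => p.O.mul_mem _ _ (p.mem _) (pow_mem hp _)
  have hyfin : ∀ p : Pl k K, T ∈ p.O → ∀ i, y i ∈ p.O := fun p hp i =>
    A4_int p (hUfin p hp) (hyI i).2
  let E : Module.End k K := (D : K →ₗ[k] K)
  have hE : ∀ n F, (E ^ n) F = D^[n] F := fun n F => Module.End.pow_apply _ _ _
  -- the place is finite, `U` has a value which is not in `k0`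
  have hgood : ∀ p : Pl k K, T ∈ p.O → (¬ ∃ c : k0, p.M (Qf b T - algebraMap k0 K c)) →
      ∀ (i : Fin e) (j n : ℕ), p.Ge 0 ((E ^ n) ((Qf b T) ^ j * y i)) := by
    intro p hp hc i j n
    rw [← (hL p).mem_iff_ge, hE]
    have h1 := ((hA4F k0 k K b T W X Y d hBD hFF hPt hT hX hY p hp).2 hc) (y i) (hyI i).1
      (Polynomial.X ^ j) n
    simp only [map_pow, Polynomial.aeval_X] at h1
    exact h1
  -- infinite places
  have hinf : ∀ p : Pl k K, T ∉ p.O → ∀ (n : ℕ) (m : ℤ) (F : K), p.Ge m F →
      p.Ge (m - 9 * n * p.ord T) ((E ^ n) F) := by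
    intro p hp n
    induction n with
    | zero =>
      intro m F hF
      simpa using hF
    | succ n ih =>
      intro m F hF
      rw [pow_succ', Module.End.mul_apply]
      have h1 := hI1 p hp _ _ (ih m F hF)
      have h2 : m - 9 * n * p.ord T - 9 * p.ord T = m - 9 * ((n + 1 : ℕ) : ℤ) * p.ord T := by
        push_cast
        ring
      rw [h2] at h1
      exact h1
  have hfin : {p : Pl k K | p.rr d.δ ≠ 0}.Finite := hPL7 k K hFF d.δ hδ
  set S : Finset (Pl k K) := hfin.toFinset.filter
    (fun p => T ∈ p.O ∧ ∃ c : k0, p.M (Qf b T - algebraMap k0 K c)) with hS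
  have hrr : ∀ p : Pl k K, 0 ≤ p.rr d.δ := fun p =>
    (hCORR k0 k K b T W d hFF hPt.e1 hT p).2.2.1
  have hsupp : Function.support (fun p : Pl k K => p.rr d.δ) ⊆ (hfin.toFinset : Set (Pl k K)) := by
    intro p hp
    simpa using hp
  have hsum : ∑ p ∈ S, p.rr d.δ ≤ Pl.kap d.δ := by
    unfold Pl.kap
    rw [finsum_eq_sum_of_support_subset _ hsupp]
    exact Finset.sum_le_sum_of_subset_of_nonneg (Finset.filter_subset _ _) (fun p _ _ => hrr p)
  have hkap : 0 ≤ Pl.kap d.δ := (Finset.sum_nonneg fun p _ => hrr p).trans hsum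
  have key : ∀ M : ℕ, (e : ℤ) * M ≤ (M + c₀) * (Pl.kap d.δ + 1) + 1 := by
    intro M
    set V₀ : Submodule k K := Submodule.span k
      (Set.range fun q : Fin M × Fin e => (Qf b T) ^ (q.1 : ℕ) * y q.2) with hV₀
    have hfd : FiniteDimensional k V₀ := FiniteDimensional.span_of_finite k (Set.finite_range _)
    have hdim : Module.finrank k V₀ = M * e := by
      rw [hV₀, finrank_span_eq_card (A4_indep hU y hy M)]
      simp
    have hspan : ∀ Z : Submodule k K, (∀ (j : ℕ) (i : Fin e), j < M → (Qf b T) ^ j * y i ∈ Z) →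
        V₀ ≤ Z := by
      intro Z hZ
      rw [hV₀, Submodule.span_le]
      rintro _ ⟨q, rfl⟩
      exact hZ _ _ q.1.2
    have hfinreg : ∀ F ∈ V₀, ∀ p : Pl k K, T ∈ p.O → p.Ge 0 F := by
      intro F hF p hp
      refine hspan (A4_ge (hL p) 0) (fun j i _ => ?_) hF
      rw [A4_mem_ge, ← (hL p).mem_iff_ge]
      exact p.O.mul_mem _ _ (pow_mem (hUfin p hp) _) (hyfin p hp i)
    have hSmem : ∀ p ∈ S, T ∈ p.O ∧ ∃ c : k0, p.M (Qf b T - algebraMap k0 K c) := by
      intro p hp
      rw [hS, Finset.mem_filter] at hp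
      exact hp.2
    have hcount := A4_count hCODIM hFF hL V₀ E S (fun p => p.rr d.δ) (fun p _ => hrr p)
      (by
        intro p hp F hF
        obtain ⟨h1, h2⟩ := hSmem p hp
        exact (hA4F k0 k K b T W X Y d hBD hFF hPt hT hX hY p h1).1 h2 F
          (((hL p).mem_iff_ge F).2 hF))
      (by
        intro F hF p hp
        exact hfinreg F hF p (hSmem p hp).1) (M + c₀)
    obtain ⟨N, hN⟩ : ∃ N : ℕ, N = M + c₀ := ⟨_, rfl⟩
    rw [← hN] at hcount
    have hVN : A4_V hL V₀ E S N ≤
        Submodule.span k (Set.range fun i : Fin (N + 1) => (Qf b T) ^ (i : ℕ)) := by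
      intro F hF
      apply hKERN k K hFF D (Qf b T) hDu N F
      obtain ⟨c', hc'⟩ := hPL5 k K hFF ((E ^ N) F) (fun p => by
        rw [(hL p).mem_iff_ge]
        by_cases hp : T ∈ p.O
        · by_cases hpc : ∃ c : k0, p.M (Qf b T - algebraMap k0 K c)
          · by_cases hr0 : p.rr d.δ = 0
            · have h1 : ∀ n, p.Ge 0 ((E ^ n) F) := by
                intro n
                induction n with
                | zero => exact hfinreg F hF.1 p hp
                | succ n ih =>
                  rw [pow_succ', Module.End.mul_apply]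
                  have h2 := (hA4F k0 k K b T W X Y d hBD hFF hPt hT hX hY p hp).1 hpc _
                    (((hL p).mem_iff_ge _).2 ih)
                  rw [hr0, neg_zero] at h2
                  exact h2
              exact h1 N
            · refine hF.2 N le_rfl p ?_
              rw [hS, Finset.mem_filter]
              exact ⟨by simpa using hr0, hp, hpc⟩
          · have h1 : V₀ ≤ (A4_ge (hL p) 0).comap (E ^ N) :=
              hspan _ (fun j i _ => hgood p hp hpc i j N)
            exact h1 hF.1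
        · have h1 : p.Ge (9 * N * p.ord T) F := by
            refine hspan (A4_ge (hL p) _) ?_ hF.1
            intro j i hj
            rw [A4_mem_ge]
            have h2 : p.Ge (j * (9 * p.ord T) + 9 * c₀ * p.ord T) (Qf b T ^ j * y i) := by
              refine (hL p).ge_mul (Or.inr ?_) (hyinf p hp i)
              rw [(hL p).ord_pow, hordU p hp]
            refine (hL p).ge_mono h2 ?_
            have h3 : (j : ℤ) + c₀ ≤ N := by
              rw [hN]
              push_cast
              omega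
            nlinarith [hordT p hp]
          have h2 := hinf p hp N _ F h1
          rw [sub_self] at h2
          exact h2)
      rw [Function.iterate_succ_apply', ← hE, hc']
      exact D.map_algebraMap c'
    have hfd2 : Module.Finite k
        (Submodule.span k (Set.range fun i : Fin (N + 1) => (Qf b T) ^ (i : ℕ))) :=
      FiniteDimensional.span_of_finite k (Set.finite_range _)
    have hdim2 : Module.finrank k (A4_V hL V₀ E S N) ≤ N + 1 := by
      refine (Submodule.finrank_mono hVN).trans ?_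
      have := finrank_range_le_card (R := k) (fun i : Fin (N + 1) => (Qf b T) ^ (i : ℕ))
      rw [Fintype.card_fin] at this
      exact this
    have h1 : (Module.finrank k (A4_V hL V₀ E S N) : ℤ) ≤ N + 1 := by exact_mod_cast hdim2
    have h2 : (N : ℤ) * ∑ p ∈ S, p.rr d.δ ≤ N * Pl.kap d.δ :=
      mul_le_mul_of_nonneg_left hsum (by positivity)
    rw [hdim] at hcount
    have h3 : (N : ℤ) = M + c₀ := by
      rw [hN]
      push_cast
      ring
    rw [h3] at hcount h1 h2
    push_cast at hcount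
    linarith
  by_contra hcon
  push Not at hcon
  have h1 := key (c₀ * (Pl.kap d.δ + 1).toNat + 2)
  have h2 : ((Pl.kap d.δ + 1).toNat : ℤ) = Pl.kap d.δ + 1 := Int.toNat_of_nonneg (by linarith)
  push_cast at h1
  rw [h2] at h1
  have h4 : (0 : ℤ) ≤ c₀ := by positivity
  have h5 : Pl.kap d.δ + 2 ≤ e := by linarith
  have h6 : (0 : ℤ) ≤ c₀ * (Pl.kap d.δ + 1) + 2 := by positivity
  have h7 := mul_le_mul_of_nonneg_right h5 h6
  nlinarith

end Pool.Agent.Helper8.SPV
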