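import Pool.Agent.Helper8.SPV.Stmts3

/-! # The condition of Bogomolov and Campana on a smooth proper model of the surface -/

set_option autoImplicit false

namespace Pool.Agent.Helper8.SPV

open IntermediateField (adjoin)
open AlgebraicGeometry CategoryTheory CategoryTheory.Limits

theorem NB_sq {A L : Type} [CommRing A] [Nontrivial A] [Field L] [Algebra A L] {z : L} (a : A)
    (h : z ^ 2 = algebraMap A L a) : IsAlgebraic A z := by
  have h1 : IsIntegral A z := by
    refine ⟨Polynomial.X ^ 2 - Polynomial.C a, Polynomial.monic_X_pow_sub_C a two_ne_zero, ?_⟩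
    simp [h]
  exact h1.isAlgebraic

theorem NB_trdeg {k L : Type} [Field k] [Field L] [Algebra k L] {t w : L}
    (hw : w ^ 2 = t ^ 3 + 1) (S : Set L) (hS : ∀ z ∈ S, z ∈ adjoin k {t, w}) :
    Algebra.trdeg k (adjoin k S) ≤ 1 := by
  have h1 : adjoin k S ≤ adjoin k {t, w} := IntermediateField.adjoin_le_iff.2 hS
  refine (trdeg_le_of_injective (IntermediateField.inclusion h1)
    (IntermediateField.inclusion_injective h1)).trans ?_
  have ht : t ∈ adjoin k {t, w} := IntermediateField.subset_adjoin _ _ (by simp)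
  set t' : adjoin k {t, w} := ⟨t, ht⟩ with ht'
  have ht'' : t' ∈ Algebra.adjoin k ({t'} : Set (adjoin k {t, w})) :=
    Algebra.subset_adjoin rfl
  have h2 : Algebra.IsAlgebraic (Algebra.adjoin k ({t'} : Set (adjoin k {t, w})))
      (adjoin k {t, w}) := by
    constructor
    rintro ⟨z, hz⟩
    induction hz using IntermediateField.adjoin_induction with
    | mem z hz =>
      rcases hz with rfl | hz
      · exact isAlgebraic_algebraMap
          (⟨t', ht''⟩ : Algebra.adjoin k ({t'} : Set (adjoin k {z, w})))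
      · rw [Set.mem_singleton_iff] at hz
        subst hz
        refine NB_sq (⟨t', ht''⟩ ^ 3 + 1) ?_
        apply Subtype.ext
        simpa using hw
    | algebraMap c =>
      exact isAlgebraic_algebraMap
        (algebraMap k (Algebra.adjoin k ({t'} : Set (adjoin k {t, w}))) c)
    | add x y hx hy h3 h4 => exact h3.add h4
    | inv x hx h3 => exact h3.inv
    | mul x y hx hy h3 h4 => exact h3.mul h4
  refine (Algebra.IsAlgebraic.trdeg_le_cardinalMk k ({t'} : Set (adjoin k {t, w}))).trans ?_
  simp

theorem NB_alg {k L : Type} [Field k] [Field L] [Algebra k L] {b : Fin 10 → k} {t w x y : L}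
    (h : ES b t w x y) : Algebra.IsAlgebraic (adjoin k {t, x}) L := by
  constructor
  intro z
  have hz : z ∈ adjoin k {t, w, x, y} := by
    rw [h.gen]
    exact IntermediateField.mem_top
  have ht : t ∈ adjoin k {t, x} := IntermediateField.subset_adjoin _ _ (by simp)
  have hx : x ∈ adjoin k {t, x} := IntermediateField.subset_adjoin _ _ (by simp)
  induction hz using IntermediateField.adjoin_induction with
  | mem z hz =>
    simp only [Set.mem_insert_iff, Set.mem_singleton_iff] at hz
    rcases hz with rfl | rfl | rfl | rfl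
    · exact isAlgebraic_algebraMap (⟨z, ht⟩ : adjoin k {z, x})
    · exact NB_sq (⟨t, ht⟩ ^ 3 + 1 : adjoin k {t, x}) h.pt.e1
    · exact isAlgebraic_algebraMap (⟨z, hx⟩ : adjoin k {t, z})
    · have hQ : Qf b t ∈ adjoin k {t, x} := by
        unfold Qf
        exact sum_mem fun j _ => mul_mem (IntermediateField.algebraMap_mem _ _) (pow_mem ht _)
      exact NB_sq (⟨x, hx⟩ ^ 3 + ⟨x, hx⟩ + ⟨Qf b t, hQ⟩ : adjoin k {t, x}) h.pt.e2
  | algebraMap c =>
    exact isAlgebraic_algebraMap (algebraMap k (adjoin k {t, x}) c)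
  | add x y hx hy h3 h4 => exact h3.add h4
  | inv x hx h3 => exact h3.inv
  | mul x y hx hy h3 h4 => exact h3.mul h4

theorem NB_trdeg0 {k L : Type} [Field k] [Field L] [Algebra k L] (S : Set L)
    (hS : ∀ z ∈ S, ∃ c : k, z = algebraMap k L c) : Algebra.trdeg k (adjoin k S) = 0 := by
  have h1 : adjoin k S ≤ ⊥ := by
    rw [IntermediateField.adjoin_le_iff]
    intro z hz
    obtain ⟨c, rfl⟩ := hS z hz
    exact IntermediateField.algebraMap_mem _ _
  have h2 : Algebra.trdeg k (adjoin k S) ≤ Algebra.trdeg k (⊥ : IntermediateField k L) :=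
    trdeg_le_of_injective (IntermediateField.inclusion h1)
      (IntermediateField.inclusion_injective h1)
  have h3 : Algebra.IsAlgebraic k (⊥ : IntermediateField k L) := inferInstance
  have h4 : Algebra.trdeg k (⊥ : IntermediateField k L) = 0 := trdeg_eq_zero
  rw [h4] at h2
  exact le_antisymm h2 zero_le

theorem st_NB (hADM : ST_ADM) (hS1 : ST_SPEC1) (hS2 : ST_SPEC2) (hOM : ST_OM) : ST_NB := by
  intro k _ _ _ b hb X _ s _ _ t w x y hES p hp F
  have hle : F.iitakaDim ≤ (((p - 1 : ℕ) : ℕ∞) : WithBot ℕ∞) := by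
    unfold RankOneSub.iitakaDim
    refine iSup₂_le ?_
    rintro m ⟨hm, -⟩
    rw [WithBot.coe_le_coe]
    rcases Nat.lt_or_ge p 3 with hp3 | hp3
    · rcases Nat.lt_or_ge p 2 with hp2 | hp2
      · obtain rfl : p = 1 := by omega
        rw [NB_trdeg0]
        · simp
        · rintro z ⟨a, ha, a', ha', rfl⟩
          by_cases h0 : a = 0
          · exact ⟨0, by rw [h0, zero_div, map_zero]⟩
          by_cases h0' : a' = 0
          · exact ⟨0, by rw [h0', div_zero, map_zero]⟩
          exact hS1 k (FF s) b t w x y hES hb F.gen F.gen_ne m hm a a' h0 h0'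
            (hADM k X s 1 F m hm a ha) (hADM k X s 1 F m hm a' ha')
      · obtain rfl : p = 2 := by omega
        refine (OrderHomClass.mono Cardinal.toENat (NB_trdeg hES.pt.e1 _ ?_)).trans (by simp)
        rintro z ⟨a, ha, a', ha', rfl⟩
        by_cases h0 : a = 0
        · rw [h0, zero_div]
          exact zero_mem _
        by_cases h0' : a' = 0
        · rw [h0', div_zero]
          exact zero_mem _
        exact hS2 k (FF s) b t w x y hES hb F.gen F.gen_ne m hm a a' h0 h0'
          (hADM k X s 2 F m hm a ha) (hADM k X s 2 F m hm a' ha')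
    · exact absurd ((hOM k (FF s) t x hES.indep (NB_alg hES)).1 p hp3 F.gen) F.gen_ne
  refine lt_of_le_of_lt hle ?_
  have : ((p - 1 : ℕ) : ℕ∞) < (p : ℕ∞) := by
    exact_mod_cast (by omega : p - 1 < p)
  exact_mod_cast this

end Pool.Agent.Helper8.SPV
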